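import Pool.Agent.H29.Tor.Main

namespace Pool.Agent.Results.MP_9dd57a_co.ToroidalJump

open Pool.Agent.H29.Tor

/-- There is a finite connected nonplanar toroidal graph of jump at least `2`, all of whose planar
subgraphs have jump less than `2`. -/
theorem result : ∃ (V : Type) (_ : Fintype V) (G : SimpleGraph V),
    G.Connected ∧ IsToroidal G ∧ ¬ IsPlanar G ∧ 2 ≤ jump G ∧
      ∀ H : G.Subgraph, IsPlanar H.coe → jump H.coe < 2 :=
  main

end Pool.Agent.Results.MP_9dd57a_co.ToroidalJump
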